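import Mathlib
import Pool.Agent.H.MP_2de88f_co.Surj

set_option autoImplicit false

namespace Pool.Agent.Results.MP_2de88f_co.HeightTen

open Pool.Agent.H.MP_2de88f_co

/-- The modular law: `a ≤ c` implies `a ∨ (b ∧ c) = (a ∨ b) ∧ c`. -/
def Modular (L : Type) [Lattice L] : Prop :=
  ∀ a b c : L, a ≤ c → a ⊔ (b ⊓ c) = (a ⊔ b) ⊓ c

/-- The height of a finite lattice: the largest `m` such that it has a chain with `m + 1`
elements. -/
noncomputable def height (L : Type) [Lattice L] : ℕ :=
  sSup {m : ℕ | ∃ c : Finset L, IsChain (· ≤ ·) (c : Set L) ∧ c.card = m + 1}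

theorem card_MA_le {A : Type} [Finite A] : Nat.card (MA A) ≤ Nat.card A + 2 := by
  have hs : Function.Surjective (fun o : Option (Option A) =>
      match o with
      | none => (MA.bot : MA A)
      | some none => MA.top
      | some (some a) => MA.pt a) := by
    rintro (_ | a | _)
    · exact ⟨none, rfl⟩
    · exact ⟨some (some a), rfl⟩
    · exact ⟨some none, rfl⟩
  have h := Nat.card_le_card_of_surjective _ hs
  have h2 : Nat.card (Option (Option A)) = Nat.card A + 2 := by
    rw [Finite.card_option, Finite.card_option]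
  omega

theorem chain_card_le {D : LData} [Fintype D.K0] [Fintype D.K1] (c : Finset D.L)
    (hc : IsChain (· ≤ ·) (c : Set D.L)) :
    c.card ≤ 2 * Fintype.card D.K0 + 2 * Fintype.card D.K1 + 1 := by
  have h := Finset.card_le_card_of_injOn (s := c)
    (t := Finset.range (2 * Fintype.card D.K0 + 2 * Fintype.card D.K1 + 1))
    (LData.rk (D := D)) (fun w _ => by
      rw [Finset.coe_range, Set.mem_Iio]
      exact Nat.lt_succ_of_le (LData.rk_le w)) (by
      intro x hx y hy hxy
      by_contra hne
      rcases hc hx hy hne with h1 | h1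
      · exact absurd hxy (LData.rk_strictMono (lt_of_le_of_ne h1 hne)).ne
      · exact absurd hxy.symm (LData.rk_strictMono (lt_of_le_of_ne h1 (Ne.symm hne))).ne)
  rwa [Finset.card_range] at h

/-- Every finite group `G` is the automorphism group of a finite modular lattice of height at most
ten with at most `(|G|² + 7|G| + 2)⁵` elements. -/
theorem result (G : Type) [Group G] [Finite G] :
    ∃ (L : Type) (_ : Lattice L), Finite L ∧ Nonempty L ∧ Modular L ∧ height L ≤ 10 ∧
      Nat.card L ≤ (Nat.card G ^ 2 + 7 * Nat.card G + 2) ^ 5 ∧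
      Nonempty ((L ≃o L) ≃* G) := by
  obtain ⟨m, ⟨ε⟩⟩ := Finite.exists_equiv_fin G
  have hcard : Nat.card G = m := by
    rw [Nat.card_congr ε, Nat.card_eq_fintype_card, Fintype.card_fin]
  let e : ℕ → G := fun c => if h : c < m then ε.symm ⟨c, h⟩ else 1
  have he : ∀ g : G, ∃ c < m + 3, e c = g := by
    intro g
    refine ⟨ε g, by have := (ε g).2; omega, ?_⟩
    simp [e]
  have hn : 3 ≤ m + 3 := by omega
  have hok := gdata_ok G (m + 3) e hn
  have h1 := hok.finK0
  have h2 := hok.finK1
  have h3 := hok.finV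
  have h4 := hok.finE
  let i0 : Fintype (gdata G (m + 3) e).K0 := inferInstanceAs (Fintype Bool)
  let i1 : Fintype (gdata G (m + 3) e).K1 := inferInstanceAs (Fintype (Fin 3))
  have c0 : Fintype.card (gdata G (m + 3) e).K0 = 2 := Fintype.card_bool
  have c1 : Fintype.card (gdata G (m + 3) e).K1 = 3 := Fintype.card_fin 3
  refine ⟨(gdata G (m + 3) e).L, inferInstance, inferInstance, inferInstance, ?_, ?_, ?_,
    ⟨(MulEquiv.ofBijective (ghom G (m + 3) e hn)
      ⟨ghom_injective G (m + 3) e hn, ghom_surjective G (m + 3) e hn he⟩).symm⟩⟩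
  · intro a b c hac
    exact (sup_inf_assoc_of_le b hac).symm
  · apply csSup_le'
    rintro k ⟨c, hc, hk⟩
    have := chain_card_le c hc
    omega
  · have hV : ∀ k, Nat.card (MA ((gdata G (m + 3) e).V k)) ≤ m ^ 2 + 7 * m + 2 := by
      intro k
      refine card_MA_le.trans ?_
      change Nat.card (G × Fin (aa (m + 3) k)) + 2 ≤ _
      rw [Nat.card_prod, hcard, Nat.card_eq_fintype_card (α := Fin (aa (m + 3) k)),
        Fintype.card_fin]
      have : aa (m + 3) k ≤ m + 7 := by cases k <;> simp only [aa] <;> omega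
      nlinarith [Nat.mul_le_mul_left m this]
    have hE : ∀ t, Nat.card (MA ((gdata G (m + 3) e).E t)) ≤ m ^ 2 + 7 * m + 2 := by
      intro t
      refine card_MA_le.trans ?_
      change Nat.card (G × Fin (bb (m + 3) t)) + 2 ≤ _
      rw [Nat.card_prod, hcard, Nat.card_eq_fintype_card (α := Fin (bb (m + 3) t)),
        Fintype.card_fin]
      have : bb (m + 3) t ≤ m + 7 := by
        change Fin 3 at t
        fin_cases t <;> simp only [bb] <;> omega
      nlinarith [Nat.mul_le_mul_left m this]
    have hL : Nat.card (gdata G (m + 3) e).L ≤ Nat.card (gdata G (m + 3) e).Amb :=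
      Finite.card_subtype_le _
    refine hL.trans ?_
    rw [hcard]
    change Nat.card ((∀ k, MA ((gdata G (m + 3) e).V k)) × (∀ t, MA ((gdata G (m + 3) e).E t))) ≤ _
    rw [Nat.card_prod, Nat.card_pi, Nat.card_pi]
    calc (∏ k, Nat.card (MA ((gdata G (m + 3) e).V k))) *
          ∏ t, Nat.card (MA ((gdata G (m + 3) e).E t))
        ≤ (∏ _k : (gdata G (m + 3) e).K0, (m ^ 2 + 7 * m + 2)) *
          ∏ _t : (gdata G (m + 3) e).K1, (m ^ 2 + 7 * m + 2) :=
          Nat.mul_le_mul (Finset.prod_le_prod' fun k _ => hV k)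
            (Finset.prod_le_prod' fun t _ => hE t)
      _ = (m ^ 2 + 7 * m + 2) ^ 5 := by
          rw [Finset.prod_const, Finset.prod_const, Finset.card_univ, Finset.card_univ, c0, c1,
            ← pow_add]

end Pool.Agent.Results.MP_2de88f_co.HeightTen
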